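import Pool.Agent.Lib.MP_b1a3a4_al.MVS.TH.Iface

/-!
# Project MVS, part V: GRID (13.20)
-/

set_option linter.all false

namespace Pool.Agent.Lib.MP_b1a3a4_al.MVS.TH.H83

open Pool.Agent.Lib.MP_b1a3a4_al.MVS.TH

/-- The small cube `p` of the grid with `2^(M i)` parts in the direction `i`. -/
noncomputable def sv {q : ℕ} (M : Fin q → ℕ) (p : Fin q → ℕ) (x : Cu q) : Cu q :=
  fun i => Set.projIcc 0 1 zero_le_one (((p i : ℝ) + x i) / 2 ^ (M i))

/-- the indices of the small cubes -/
def idx {q : ℕ} (M : Fin q → ℕ) : Finset (Fin q → ℕ) :=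
  Fintype.piFinset (fun i => Finset.range (2 ^ (M i)))

lemma mem_idx {q : ℕ} (M : Fin q → ℕ) (p : Fin q → ℕ) :
    p ∈ idx M ↔ ∀ i, p i < 2 ^ (M i) := by
  simp [idx, Fintype.mem_piFinset]

lemma idx_split {q : ℕ} {P : Type} [AddCommGroup P] (M : Fin q → ℕ) (i : Fin q)
    (f : (Fin q → ℕ) → P) :
    ∑ p ∈ idx (Function.update M i (M i + 1)), f p =
      ∑ p ∈ idx M, f p + ∑ p ∈ idx M, f (Function.update p i (2 ^ (M i) + p i)) := by
  classical
  rw [← Finset.sum_filter_add_sum_filter_not _ (fun p => p i < 2 ^ (M i))]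
  have key : ∀ p : Fin q → ℕ, p ∈ idx (Function.update M i (M i + 1)) ↔
      p i < 2 ^ (M i + 1) ∧ ∀ j, j ≠ i → p j < 2 ^ (M j) := by
    intro p
    rw [mem_idx]
    constructor
    · intro h
      refine ⟨?_, fun j hj => ?_⟩
      · have := h i; rwa [Function.update_self] at this
      · have := h j; rwa [Function.update_of_ne hj] at this
    · rintro ⟨h1, h2⟩ j
      by_cases hj : j = i
      · subst hj; rwa [Function.update_self]
      · rw [Function.update_of_ne hj]; exact h2 j hj
  congr 1
  · apply Finset.sum_congr _ (fun _ _ => rfl)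
    ext p
    rw [Finset.mem_filter, key, mem_idx]
    constructor
    · rintro ⟨⟨_, h2⟩, h3⟩ j
      by_cases hj : j = i
      · subst hj; exact h3
      · exact h2 j hj
    · intro h
      refine ⟨⟨?_, fun j _ => h j⟩, h i⟩
      rw [pow_succ]; have := h i; omega
  · symm
    apply Finset.sum_bij (fun p _ => Function.update p i (2 ^ (M i) + p i))
    · intro p hp
      rw [mem_idx] at hp
      rw [Finset.mem_filter, key]
      refine ⟨⟨?_, fun j hj => ?_⟩, ?_⟩
      · rw [Function.update_self, pow_succ]; have := hp i; omega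
      · rw [Function.update_of_ne hj]; exact hp j
      · rw [Function.update_self]; omega
    · intro p hp p' hp' h
      funext j
      have := congrFun h j
      by_cases hj : j = i
      · subst hj
        rw [Function.update_self, Function.update_self] at this
        omega
      · rwa [Function.update_of_ne hj, Function.update_of_ne hj] at this
    · intro p hp
      rw [Finset.mem_filter, key] at hp
      obtain ⟨⟨h1, h2⟩, h3⟩ := hp
      refine ⟨Function.update p i (p i - 2 ^ (M i)), ?_, ?_⟩
      · rw [mem_idx]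
        intro j
        by_cases hj : j = i
        · subst hj
          rw [Function.update_self]
          rw [pow_succ] at h1
          omega
        · rw [Function.update_of_ne hj]; exact h2 j hj
      · funext j
        by_cases hj : j = i
        · subst hj
          simp only [Function.update_self]
          omega
        · simp only [Function.update_of_ne hj]
    · intro p hp; rfl

lemma projIcc_mem {t : ℝ} (h0 : 0 ≤ t) (h1 : t ≤ 1) :
    ((Set.projIcc (0 : ℝ) 1 zero_le_one t : unitInterval) : ℝ) = t := by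
  rw [Set.projIcc_of_mem zero_le_one ⟨h0, h1⟩]

lemma halfL_val {q : ℕ} (i : Fin q) (x : Cu q) : ((halfL i x) i : ℝ) = (x i : ℝ) / 2 := by
  rw [halfL, Function.update_self]
  have := (x i).2.1
  have := (x i).2.2
  exact projIcc_mem (by linarith) (by linarith)

lemma halfR_val {q : ℕ} (i : Fin q) (x : Cu q) :
    ((halfR i x) i : ℝ) = (1 + (x i : ℝ)) / 2 := by
  rw [halfR, Function.update_self]
  have := (x i).2.1
  have := (x i).2.2
  exact projIcc_mem (by linarith) (by linarith)

lemma halfL_ne {q : ℕ} {i j : Fin q} (h : j ≠ i) (x : Cu q) : (halfL i x) j = x j := by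
  rw [halfL, Function.update_of_ne h]

lemma halfR_ne {q : ℕ} {i j : Fin q} (h : j ≠ i) (x : Cu q) : (halfR i x) j = x j := by
  rw [halfR, Function.update_of_ne h]

lemma continuous_halfL {q : ℕ} (i : Fin q) : Continuous (halfL i) := by
  unfold halfL
  fun_prop

lemma continuous_halfR {q : ℕ} (i : Fin q) : Continuous (halfR i) := by
  unfold halfR
  fun_prop

lemma sv_bd {q : ℕ} {M p : Fin q → ℕ} (hp : p ∈ idx M) (x : Cu q) (i : Fin q) :
    0 ≤ ((p i : ℝ) + x i) / 2 ^ (M i) ∧ ((p i : ℝ) + x i) / 2 ^ (M i) ≤ 1 := by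
  have h0 := (x i).2.1
  have h1 := (x i).2.2
  constructor
  · positivity
  · rw [div_le_one (by positivity)]
    have h3 : ((p i : ℝ) + 1) ≤ 2 ^ (M i) := by exact_mod_cast (mem_idx M p).1 hp i
    linarith

lemma halfL_sv {q : ℕ} (M p : Fin q → ℕ) (i : Fin q) (hp : p ∈ idx M) (x : Cu q) :
    halfL i (sv M p x) = sv (Function.update M i (M i + 1)) p x := by
  funext j
  apply Subtype.ext
  by_cases hj : j = i
  · subst hj
    rw [halfL_val]
    simp only [sv, Function.update_self]
    obtain ⟨h0, h1⟩ := sv_bd hp x j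
    have e : ((p j : ℝ) + x j) / 2 ^ (M j + 1) = ((p j : ℝ) + x j) / 2 ^ (M j) / 2 := by
      rw [pow_succ]; field_simp
    rw [projIcc_mem h0 h1, projIcc_mem (by rw [e]; linarith) (by rw [e]; linarith), e]
  · rw [halfL_ne hj]
    simp only [sv, Function.update_of_ne hj]

lemma halfR_sv {q : ℕ} (M p : Fin q → ℕ) (i : Fin q) (hp : p ∈ idx M) (x : Cu q) :
    halfR i (sv M p x) =
      sv (Function.update M i (M i + 1)) (Function.update p i (2 ^ (M i) + p i)) x := by
  funext j
  apply Subtype.ext
  by_cases hj : j = i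
  · subst hj
    rw [halfR_val]
    simp only [sv, Function.update_self]
    obtain ⟨h0, h1⟩ := sv_bd hp x j
    have e : (((2 ^ (M j) + p j : ℕ) : ℝ) + x j) / 2 ^ (M j + 1) =
        (1 + ((p j : ℝ) + x j) / 2 ^ (M j)) / 2 := by
      rw [pow_succ]; push_cast; field_simp
      ring
    rw [projIcc_mem h0 h1, projIcc_mem (by rw [e]; linarith) (by rw [e]; linarith), e]
  · rw [halfR_ne hj]
    simp only [sv, Function.update_of_ne hj]

section

variable {Z : Type} [TopologicalSpace Z] {B : Set Z} {y : Z}

/-- `a` is equal to `y` on the hyperplanes of the grid -/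
def Nul {q : ℕ} (y : Z) (M : Fin q → ℕ) (a : Cu q → Z) : Prop :=
  ∀ x : Cu q, (∃ (i : Fin q) (j : ℕ), (x i : ℝ) * 2 ^ (M i) = j) → a x = y

lemma nul_halfL {q : ℕ} {M : Fin q → ℕ} {i : Fin q} {a : Cu q → Z}
    (h : Nul y (Function.update M i (M i + 1)) a) : Nul y M (fun x => a (halfL i x)) := by
  rintro x ⟨j, n, hn⟩
  apply h
  refine ⟨j, n, ?_⟩
  by_cases hj : j = i
  · subst hj
    rw [halfL_val, Function.update_self, ← hn, pow_succ]
    ring
  · rw [halfL_ne hj, Function.update_of_ne hj, hn]

lemma nul_halfR {q : ℕ} {M : Fin q → ℕ} {i : Fin q} {a : Cu q → Z}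
    (h : Nul y (Function.update M i (M i + 1)) a) : Nul y M (fun x => a (halfR i x)) := by
  rintro x ⟨j, n, hn⟩
  apply h
  by_cases hj : j = i
  · subst hj
    refine ⟨j, 2 ^ (M j) + n, ?_⟩
    rw [halfR_val, Function.update_self]
    push_cast
    rw [← hn, pow_succ]
    ring
  · refine ⟨j, n, ?_⟩
    rw [halfR_ne hj, Function.update_of_ne hj, hn]

lemma nul_bd {q : ℕ} {M : Fin q → ℕ} {a : Cu q → Z} (h : Nul y M a) :
    ∀ x ∈ Cube.boundary (Fin q), a x = y := by
  rintro x ⟨i, hi | hi⟩
  · exact h x ⟨i, 0, by simp [hi]⟩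
  · exact h x ⟨i, 2 ^ (M i), by simp [hi]⟩

lemma grid_aux {q : ℕ} {P : Type} [AddCommGroup P] {cl : (Cu q → Z) → P}
    (hcl : IsCla q B y cl) : ∀ (n : ℕ) (M : Fin q → ℕ) (a : Cu q → Z), ∑ i, M i = n →
      Good B y a → Nul y M a → cl a = ∑ p ∈ idx M, cl (fun x => a (sv M p x)) := by
  intro n
  induction n with
  | zero =>
    intro M a hM ha hn
    have h0 : ∀ i, M i = 0 := by
      intro i
      have := (Finset.sum_eq_zero_iff.1 hM) i (Finset.mem_univ i)
      exact this
    have e1 : idx M = {fun _ => 0} := by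
      ext p
      rw [mem_idx, Finset.mem_singleton]
      constructor
      · intro h
        funext i
        have := h i
        rw [h0 i] at this
        simpa using this
      · rintro rfl i
        positivity
    rw [e1, Finset.sum_singleton]
    congr 1
    funext x
    congr 1
    funext i
    simp only [sv, h0, pow_zero, div_one, Nat.cast_zero, zero_add]
    exact (Set.projIcc_val _ (x i)).symm
  | succ n ih =>
    intro M a hM ha hn
    obtain ⟨i, hi⟩ : ∃ i, M i ≠ 0 := by
      by_contra hcon
      push Not at hcon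
      rw [Finset.sum_eq_zero (fun i _ => hcon i)] at hM
      omega
    set M' : Fin q → ℕ := Function.update M i (M i - 1) with hM'
    have hMM : M = Function.update M' i (M' i + 1) := by
      funext j
      by_cases hj : j = i
      · subst hj
        simp only [hM', Function.update_self]
        omega
      · simp only [hM', Function.update_of_ne hj]
    have hs : ∑ j, M' j = n := by
      have h1 : ∑ j, M' j + 1 = ∑ j, M j := by
        rw [← Finset.add_sum_erase _ _ (Finset.mem_univ i),
          ← Finset.add_sum_erase _ M (Finset.mem_univ i)]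
        have e2 : ∑ j ∈ Finset.univ.erase i, M' j = ∑ j ∈ Finset.univ.erase i, M j := by
          apply Finset.sum_congr rfl
          intro j hj
          simp only [hM', Function.update_of_ne (Finset.ne_of_mem_erase hj)]
        rw [e2]
        simp only [hM', Function.update_self]
        omega
      omega
    rw [hMM] at hn
    have hL := nul_halfL hn
    have hR := nul_halfR hn
    have hmid : ∀ x : Cu q, (x i : ℝ) = 1 / 2 → a x = y := by
      intro x hx
      apply hn
      refine ⟨i, 2 ^ (M' i), ?_⟩
      rw [hx, Function.update_self, pow_succ]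
      push_cast
      ring
    rw [hcl.add a ha i hmid]
    rw [ih M' (fun x => a (halfL i x)) hs
        ⟨ha.1.comp (continuous_halfL i), fun x => ha.2.1 _, nul_bd hL⟩ hL,
      ih M' (fun x => a (halfR i x)) hs
        ⟨ha.1.comp (continuous_halfR i), fun x => ha.2.1 _, nul_bd hR⟩ hR]
    rw [hMM, idx_split]
    congr 1
    · apply Finset.sum_congr rfl
      intro p hp
      congr 1
      funext x
      rw [halfL_sv M' p i hp x]
    · apply Finset.sum_congr rfl
      intro p hp
      congr 1
      funext x
      rw [halfR_sv M' p i hp x]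

end

theorem grid : GridStatement := by
  intro Z _ B y r P _ cl hcl a m ha hn
  rw [grid_aux hcl (∑ _i : Fin (r + 2), m) (fun _ => m) a rfl ha (fun x hx => hn x hx)]
  symm
  apply Finset.sum_bij (fun (p : Fin (r + 2) → Fin (2 ^ m)) _ => fun i => ((p i : Fin (2 ^ m)) : ℕ))
  · intro p _
    rw [mem_idx]
    intro i
    exact (p i).2
  · intro p _ p' _ h
    funext i
    exact Fin.ext (congrFun h i)
  · intro p hp
    rw [mem_idx] at hp
    exact ⟨fun i => ⟨p i, hp i⟩, Finset.mem_univ _, rfl⟩
  · intro p _
    rfl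

end Pool.Agent.Lib.MP_b1a3a4_al.MVS.TH.H83
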