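import Pool.Agent.Lib.MP_b1a3a4_al.MVS.TH.Iface

/-!
# Project MVS, part V: HATROT (13.16)
-/

set_option linter.all false

namespace Pool.Agent.Lib.MP_b1a3a4_al.MVS.TH.H83

open Pool.Agent.Lib.MP_b1a3a4_al.MVS.TH

/-- the new coordinate -/
noncomputable def rv {r : ℕ} (i : Fin (r + 2)) (ε : Bool) (x : Cu (r + 3)) : unitInterval :=
  Set.projIcc 0 1 zero_le_one ((x i.castSucc : ℝ) + (x i.succ : ℝ) - (ev ε : ℝ))

lemma continuous_rv {r : ℕ} (i : Fin (r + 2)) (ε : Bool) : Continuous (rv i ε) := by
  unfold rv
  fun_prop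

lemma proj_ge {t : ℝ} (h : 1 ≤ t) :
    Set.projIcc (0 : ℝ) 1 zero_le_one t = (1 : unitInterval) := by
  rw [Set.projIcc_of_right_le _ h]; rfl

lemma proj_le {t : ℝ} (h : t ≤ 0) :
    Set.projIcc (0 : ℝ) 1 zero_le_one t = (0 : unitInterval) := by
  rw [Set.projIcc_of_le_left _ h]; rfl

lemma proj_coe (t : unitInterval) :
    Set.projIcc (0 : ℝ) 1 zero_le_one (t : ℝ) = t := Set.projIcc_val _ t

lemma proj_same (ε : Bool) (t : unitInterval) :
    Set.projIcc (0 : ℝ) 1 zero_le_one ((t : ℝ) + (ev ε : ℝ) - (ev ε : ℝ)) = t := by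
  rw [add_sub_cancel_right]; exact proj_coe t

lemma proj_not (ε : Bool) (t : unitInterval) :
    Set.projIcc (0 : ℝ) 1 zero_le_one ((t : ℝ) + (ev (!ε) : ℝ) - (ev ε : ℝ)) = ev (!ε) := by
  have h0 := t.2.1
  have h1 := t.2.2
  cases ε
  · simp only [Bool.not_false, ev_true, ev_false]
    apply proj_ge
    simp [h0]
  · simp only [Bool.not_true, ev_true, ev_false]
    apply proj_le
    simp [h1]

lemma ev_zero_or_one (ε : Bool) : (ev ε : unitInterval) = 0 ∨ (ev ε : unitInterval) = 1 := by
  cases ε <;> simp

theorem hatrot : HatrotStatement := by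
  intro Z _ B y r P _ cl hcl a ha i ε
  set u : Cu (r + 3) → Cu (r + 2) :=
    fun x => Function.update (rem i.succ x) i (rv i ε x) with hu
  have hcu : Continuous u := (continuous_rem i.succ).update i (continuous_rv i ε)
  -- the other faces
  have hoth : ∀ (x : Cu (r + 3)) (l : Fin (r + 3)), l ≠ i.succ → l ≠ i.castSucc →
      (x l = 0 ∨ x l = 1) → a (u x) = y := by
    intro x l h1 h2 hx
    apply ha.2.2
    rcases Fin.eq_self_or_eq_succAbove i.succ l with h | ⟨l', h⟩
    · exact absurd h h1
    · have hl' : l' ≠ i := by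
        rintro rfl
        rw [Fin.succAbove_succ_self] at h
        exact h2 h
      refine ⟨l', ?_⟩
      simp only [hu, Function.update_of_ne hl', rem_apply, ← h]
      exact hx
  have hv : ∀ x : Cu (r + 3), (rv i ε x = 0 ∨ rv i ε x = 1) → a (u x) = y := by
    intro x hx
    apply ha.2.2
    refine ⟨i, ?_⟩
    simp only [hu, Function.update_self]
    exact hx
  have hsucc : ∀ x, u (fi i.succ ε x) = x := by
    intro x
    have e1 : rv i ε (fi i.succ ε x) = x i := by
      simp only [rv, fi]
      rw [ins_same, ← Fin.succAbove_succ_self i, ins_succAbove]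
      exact proj_same ε (x i)
    simp only [hu]
    rw [e1, fi, rem_ins, Function.update_eq_self]
  have hsucc' : ∀ x, rv i ε (fi i.succ (!ε) x) = ev (!ε) := by
    intro x
    simp only [rv, fi]
    rw [ins_same, ← Fin.succAbove_succ_self i, ins_succAbove]
    exact proj_not ε (x i)
  have hcast_s : ∀ δ (x : Cu (r + 2)), (fi i.castSucc δ x) i.succ = x i := by
    intro δ x
    have := ins_succAbove i.castSucc (ev δ) x i
    rw [Fin.succAbove_castSucc_self] at this
    exact this
  have hcast : ∀ x, u (fi i.castSucc ε x) = x := by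
    intro x
    have e1 : rv i ε (fi i.castSucc ε x) = x i := by
      simp only [rv]
      rw [hcast_s, fi, ins_same, add_comm]
      exact proj_same ε (x i)
    have e2 : rem i.succ (fi i.castSucc ε x) = ins i (ev ε) (rem i x) := by
      have := rem_ins_ne i.succ i (ev ε) x
      rw [Fin.succAbove_succ_self, Fin.predAbove_succ_self] at this
      exact this
    simp only [hu]
    rw [e1, e2, ins_update, ins_rem]
  have hcast' : ∀ x, rv i ε (fi i.castSucc (!ε) x) = ev (!ε) := by
    intro x
    simp only [rv]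
    rw [hcast_s, fi, ins_same, add_comm]
    exact proj_not ε (x i)
  have fl : ∀ l (δ : Bool) (x : Cu (r + 2)), (fi l δ x) l = ev δ := by
    intro l δ x; simp [fi]
  have F1 : ∀ x, a (u (fi i.succ ε x)) = a x := fun x => by rw [hsucc]
  have F2 : ∀ x, a (u (fi i.succ (!ε) x)) = y := fun x =>
    hv _ (by rw [hsucc']; exact ev_zero_or_one _)
  have F3 : ∀ x, a (u (fi i.castSucc ε x)) = a x := fun x => by rw [hcast]
  have F4 : ∀ x, a (u (fi i.castSucc (!ε) x)) = y := fun x =>
    hv _ (by rw [hcast']; exact ev_zero_or_one _)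
  have F5 : ∀ l, l ≠ i.succ → l ≠ i.castSucc → ∀ δ x, a (u (fi l δ x)) = y := by
    intro l h1 h2 δ x
    exact hoth _ l h1 h2 (by rw [fl]; exact ev_zero_or_one _)
  refine ⟨fun x => a (u x), ⟨ha.1.comp hcu, fun x => ha.2.1 _, ?_⟩, ?_, F1, F2, F5⟩
  · rintro x ⟨k, l, hkl, hk, hl⟩
    by_cases hk' : k = i.succ ∨ k = i.castSucc
    · by_cases hl' : l = i.succ ∨ l = i.castSucc
      · have hb : (x i.castSucc = 0 ∨ x i.castSucc = 1) ∧ (x i.succ = 0 ∨ x i.succ = 1) := by
          rcases hk' with rfl | rfl <;> rcases hl' with rfl | rfl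
          · exact absurd rfl hkl
          · exact ⟨hl, hk⟩
          · exact ⟨hk, hl⟩
          · exact absurd rfl hkl
        apply hv
        obtain ⟨h1, h2⟩ := hb
        simp only [rv]
        rcases h1 with h1 | h1 <;> rcases h2 with h2 | h2 <;> cases ε <;> rw [h1, h2] <;>
          simp only [ev_true, ev_false] <;>
          first
          | (left; apply proj_le; norm_num; done)
          | (right; apply proj_ge; norm_num; done)
      · push Not at hl'
        exact hoth x l hl'.1 hl'.2 hl
    · push Not at hk'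
      exact hoth x k hk'.1 hk'.2 hk
  · have hne : i.castSucc ≠ i.succ := by
      intro h
      have := congrArg Fin.val h
      simp at this
    unfold Sg
    have hsum : ∀ f : Fin (r + 3) → P, (∀ l, l ≠ i.succ → l ≠ i.castSucc → f l = 0) →
        ∑ l, f l = f i.castSucc + f i.succ := by
      intro f hf
      rw [← Finset.sum_pair hne]
      symm
      apply Finset.sum_subset (Finset.subset_univ _)
      intro l _ hl
      simp only [Finset.mem_insert, Finset.mem_singleton, not_or] at hl
      exact hf l hl.2 hl.1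
    rw [hsum]
    · have e1 : ∀ δ, (fun x => a (u (fi i.succ δ x))) = (fun x => a (u (fi i.castSucc δ x))) := by
        intro δ
        funext x
        by_cases hδ : δ = ε
        · subst hδ; rw [F1, F3]
        · have : δ = !ε := by
            cases δ <;> cases ε <;> simp_all
          subst this
          rw [F2, F4]
      rw [e1 true, e1 false]
      simp only [Fin.val_succ, Fin.val_castSucc, pow_succ]
      rw [← add_smul]
      simp
    · intro l h1 h2
      have e1 : ∀ δ, (fun x => a (u (fi l δ x))) = fun _ => y := by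
        intro δ
        funext x
        exact F5 l h1 h2 δ x
      rw [e1 true, e1 false, sub_self, smul_zero]

end Pool.Agent.Lib.MP_b1a3a4_al.MVS.TH.H83
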